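import Pool.Agent.H24.Alpha

set_option autoImplicit false

namespace Pool.Agent.Results.MP_ae2185_co.WadeCounter

open SimpleGraph Pool.Agent.H24.Alpha

/-- `G` is strongly alpha-critical: deleting any edge increases the independence number, and
there are no isolated vertices. -/
def StronglyAlphaCritical {V : Type} (G : SimpleGraph V) : Prop :=
  (∀ e ∈ G.edgeSet, G.indepNum < (G.deleteEdges {e}).indepNum) ∧ ∀ v, ∃ w, G.Adj v w

def mask : Fin 14 → ℕ := ![12, 48, 4225, 8449, 1090, 2562, 9744, 12804, 10248, 2272, 4176, 800, 1156, 456]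

def adj (u v : Fin 14) : Bool := (mask u).testBit v.val

/-- edges: 0-2 0-3 1-4 1-5 2-7 2-12 3-8 3-13 4-6 4-10 5-9 5-11 6-9 6-10 6-13 7-9 7-12 7-13 8-11 8-13 9-11 10-12 -/
def G0 : SimpleGraph (Fin 14) where
  Adj u v := adj u v = true
  symm := ⟨by decide +kernel⟩
  loopless := ⟨by decide +kernel⟩

instance : DecidableRel G0.Adj := fun u v => inferInstanceAs (Decidable (adj u v = true))

theorem alpha : G0.indepNum = 5 := by
  have h1 := indepNum_lt G0 adj (fun _ _ h => h) 6 (by decide +kernel)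
  have h2 := le_indepNum G0 {0, 4, 5, 7, 8} (by decide +kernel)
  have h3 : ({0, 4, 5, 7, 8} : Finset (Fin 14)).card = 5 := by decide +kernel
  omega

def W : Fin 22 → Finset (Fin 14) := ![{0, 1, 2, 8, 9, 10}, {0, 1, 3, 6, 7, 11}, {0, 1, 4, 8, 9, 12}, {0, 1, 5, 6, 7, 8}, {1, 2, 3, 6, 7, 11}, {1, 2, 3, 6, 11, 12}, {1, 2, 3, 8, 9, 10}, {1, 2, 3, 9, 10, 13}, {0, 4, 5, 6, 7, 8}, {0, 4, 5, 7, 8, 10}, {0, 4, 5, 8, 9, 12}, {0, 4, 5, 11, 12, 13}, {0, 1, 6, 8, 9, 12}, {0, 1, 6, 7, 8, 10}, {0, 1, 6, 11, 12, 13}, {0, 1, 7, 8, 9, 10}, {0, 1, 6, 7, 8, 12}, {0, 1, 7, 10, 11, 13}, {0, 1, 6, 7, 8, 11}, {0, 1, 8, 9, 10, 13}, {0, 1, 9, 10, 11, 13}, {0, 1, 8, 9, 10, 12}]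

theorem W_card : ∀ k, (W k).card = 6 := by decide +kernel

theorem W_spec : ∀ a b, G0.Adj a b → ∃ k, ∀ x ∈ W k, ∀ y ∈ W k, G0.Adj x y →
    (x = a ∧ y = b) ∨ (x = b ∧ y = a) := by decide +kernel

theorem crit : StronglyAlphaCritical G0 := by
  refine ⟨fun e => ?_, by decide +kernel⟩
  induction e using Sym2.ind with
  | _ a b =>
    intro he
    obtain ⟨k, hk⟩ := W_spec a b he
    have := le_indepNum (G0.deleteEdges {s(a, b)}) (W k) (fun x hx y hy h => by
      rw [deleteEdges_adj, Set.mem_singleton_iff, Sym2.eq_iff] at h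
      exact h.2 (hk x hx y hy h.1))
    rw [W_card] at this
    rw [alpha]
    omega

theorem result :
    ∃ (G : SimpleGraph (Fin 14)) (x y : Fin 14), StronglyAlphaCritical G ∧
      2 ≤ (G.neighborSet x).ncard ∧ 2 ≤ (G.neighborSet y).ncard ∧
      ∀ S : Finset (Fin 14), G.IsNIndepSet G.indepNum S → x ∈ S ∨ y ∈ S := by
  refine ⟨G0, 0, 1, crit, ?_, ?_, fun S hS => ?_⟩
  · have : G0.neighborSet 0 = {2, 3} := by
      ext v; revert v; simp only [mem_neighborSet, Set.mem_insert_iff, Set.mem_singleton_iff]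
      decide +kernel
    rw [this, Set.ncard_pair (by decide)]
  · have : G0.neighborSet 1 = {4, 5} := by
      ext v; revert v; simp only [mem_neighborSet, Set.mem_insert_iff, Set.mem_singleton_iff]
      decide +kernel
    rw [this, Set.ncard_pair (by decide)]
  · by_contra hc
    rw [not_or] at hc
    have hm : ∀ x : Fin 14, x ≠ 0 → x ≠ 1 → x ∈ ([2, 3, 4, 5, 6, 7, 8, 9, 10, 11, 12, 13] : List (Fin 14)) := by
      decide +kernel
    have := indep_lt G0 adj (fun _ _ h => h) 5 [2, 3, 4, 5, 6, 7, 8, 9, 10, 11, 12, 13]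
      (by decide +kernel) (by decide +kernel) S
      (fun x hx => hm x (fun h => hc.1 (h ▸ hx)) (fun h => hc.2 (h ▸ hx))) hS.isIndepSet
    rw [hS.card_eq, alpha] at this
    omega

end Pool.Agent.Results.MP_ae2185_co.WadeCounter
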